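import Pool.Agent.Hx88.WM.Lin

/-!
# Characteristic polynomials on the graded pieces of stable subspaces (helper88)
-/

set_option autoImplicit false
set_option linter.unusedSectionVars false

namespace Pool.Agent.Hx88.WM

open Module Finset Polynomial

variable {k V : Type*} [Field k] [AddCommGroup V] [Module k V] [FiniteDimensional k V]

open Classical in
/-- The characteristic polynomial of the restriction of the endomorphism `f` to the stable subspace
`U`. -/
noncomputable def chp (f : End k V) (U : Submodule k V) : k[X] :=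
  if h : ∀ x ∈ U, f x ∈ U then (f.restrict h).charpoly else 1

theorem chp_eq {f : End k V} {U : Submodule k V} (h : ∀ x ∈ U, f x ∈ U) :
    chp f U = (f.restrict h).charpoly := by
  rw [chp, dif_pos h]

theorem chp_monic (f : End k V) (U : Submodule k V) : (chp f U).Monic := by
  rw [chp]
  split_ifs with h
  · exact LinearMap.charpoly_monic _
  · exact monic_one

theorem chp_natDegree {f : End k V} {U : Submodule k V} (h : ∀ x ∈ U, f x ∈ U) :
    (chp f U).natDegree = finrank k U := by
  rw [chp_eq h, LinearMap.charpoly_natDegree]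

theorem charpoly_of_equiv {X Y : Type*} [AddCommGroup X] [Module k X] [FiniteDimensional k X]
    [AddCommGroup Y] [Module k Y] [FiniteDimensional k Y] (f : End k X) (g : End k Y)
    (e : X ≃ₗ[k] Y) (h : ∀ x, e (f x) = g (e x)) : f.charpoly = g.charpoly := by
  have h1 : e.conj f = g := by
    refine LinearMap.ext fun y => ?_
    rw [LinearEquiv.conj_apply_apply, h, e.apply_symm_apply]
  rw [← h1, LinearEquiv.charpoly_conj]

/-- **The characteristic polynomial on a graded piece of a stable subspace.** -/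
theorem chp_inf {f : End k V} {A B W : Submodule k V} (hA : ∀ x ∈ A, f x ∈ A)
    (hB : ∀ x ∈ B, f x ∈ B) (hAB : A ≤ B) (hW : ∀ x ∈ W, f x ∈ W) {r : k[X]}
    (hr : chp f B = chp f A * r) : ∃ c : k[X], chp f (W ⊓ B) = chp f (W ⊓ A) * c ∧ c ∣ r := by
  -- the quotient
  let fB : End k B := f.restrict hB
  let A' : Submodule k B := A.submoduleOf B
  have hA' : A' ≤ A'.comap fB := fun x hx => hA x hx
  have h1 := Pool.Agent.Y126.SH.charpoly_eq_mul' hA'
  have h2 : (fB.restrict hA').charpoly = chp f A := by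
    rw [chp_eq hA]
    exact charpoly_of_equiv _ _ (Submodule.submoduleOfEquivOfLe hAB) fun x => rfl
  have h3 : r = (A'.mapQ A' fB hA').charpoly := by
    rw [h2, ← chp_eq hB, hr] at h1
    exact mul_left_cancel₀ (chp_monic f A).ne_zero h1
  -- the map
  have hWA : ∀ x ∈ W ⊓ A, f x ∈ W ⊓ A := fun x hx => ⟨hW x hx.1, hA x hx.2⟩
  have hWB : ∀ x ∈ W ⊓ B, f x ∈ W ⊓ B := fun x hx => ⟨hW x hx.1, hB x hx.2⟩
  let X : Submodule k V := W ⊓ B
  let fX : End k X := f.restrict hWB
  let φ : X →ₗ[k] (B ⧸ A') := A'.mkQ ∘ₗ (Submodule.inclusion (inf_le_right : W ⊓ B ≤ B))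
  have hφ : ∀ x, φ (fX x) = A'.mapQ A' fB hA' (φ x) := fun x => rfl
  have hker : LinearMap.ker φ ≤ (LinearMap.ker φ).comap fX := by
    intro x hx
    rw [LinearMap.mem_ker] at hx
    rw [Submodule.mem_comap, LinearMap.mem_ker, hφ, hx, map_zero]
  have h4 := Pool.Agent.Y126.SH.charpoly_eq_mul' hker
  have hmem : ∀ x : X, x ∈ LinearMap.ker φ ↔ (x : V) ∈ A := by
    intro x
    rw [LinearMap.mem_ker]
    exact Submodule.Quotient.mk_eq_zero A'
  have h5 : (fX.restrict hker).charpoly = chp f (W ⊓ A) := by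
    rw [chp_eq hWA]
    let e : LinearMap.ker φ ≃ₗ[k] (W ⊓ A : Submodule k V) :=
      { toFun := fun x => ⟨x.1.1, x.1.2.1, (hmem x.1).1 x.2⟩
        invFun := fun y => ⟨⟨y.1, y.2.1, hAB y.2.2⟩, (hmem _).2 y.2.2⟩
        map_add' := fun _ _ => rfl
        map_smul' := fun _ _ => rfl
        left_inv := fun _ => rfl
        right_inv := fun _ => rfl }
    exact charpoly_of_equiv _ _ e fun x => rfl
  refine ⟨((LinearMap.ker φ).mapQ (LinearMap.ker φ) fX hker).charpoly, ?_, ?_⟩
  · rw [chp_eq hWB, ← h5]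
    exact h4
  · have hran : LinearMap.range φ ≤ (LinearMap.range φ).comap (A'.mapQ A' fB hA') := by
      rintro _ ⟨x, rfl⟩
      exact ⟨fX x, hφ x⟩
    have h6 := Pool.Agent.Y126.SH.charpoly_eq_mul' hran
    have h7 : ((LinearMap.ker φ).mapQ (LinearMap.ker φ) fX hker).charpoly =
        ((A'.mapQ A' fB hA').restrict hran).charpoly := by
      refine charpoly_of_equiv _ _ φ.quotKerEquivRange fun x => ?_
      obtain ⟨x, rfl⟩ := Submodule.mkQ_surjective _ x
      apply Subtype.ext
      exact hφ x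
    rw [h3, h6, h7]
    exact dvd_mul_right _ _

/-- the whole filtration -/
theorem chp_prod {f : End k V} {M : ℕ → Submodule k V} (hM : Monotone M) (h0 : M 0 = ⊥)
    (hMf : ∀ i, ∀ x ∈ M i, f x ∈ M i) {W : Submodule k V} (hW : ∀ x ∈ W, f x ∈ W)
    {r : ℕ → k[X]} (hr : ∀ i, chp f (M (i + 1)) = chp f (M i) * r i) :
    ∃ c : ℕ → k[X], (∀ i, c i ∣ r i) ∧ (∀ i, (c i).Monic) ∧
      (∀ i, ((c i).natDegree : ℤ) = gd M W i) ∧
      ∀ m, chp f (W ⊓ M m) = ∏ i ∈ range m, c i := by
  choose c hc hcr using fun i => chp_inf (hMf i) (hMf (i + 1)) (hM (Nat.le_succ i)) hW (hr i)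
  have hmon : ∀ i, (c i).Monic := fun i => Monic.of_mul_monic_left (chp_monic f (W ⊓ M i)) (by
    rw [← hc i]; exact chp_monic _ _)
  refine ⟨c, hcr, hmon, ?_, ?_⟩
  · intro i
    have h1 := congrArg natDegree (hc i)
    rw [(chp_monic f (W ⊓ M i)).natDegree_mul (hmon i),
      chp_natDegree (U := W ⊓ M (i + 1)) (fun x hx => ⟨hW x hx.1, hMf _ x hx.2⟩),
      chp_natDegree (U := W ⊓ M i) (fun x hx => ⟨hW x hx.1, hMf _ x hx.2⟩)] at h1
    rw [gd]
    omega
  · intro m
    induction m with
    | zero =>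
      rw [h0, inf_bot_eq, Finset.range_zero, Finset.prod_empty]
      have h1 := chp_natDegree (f := f) (U := (⊥ : Submodule k V)) (fun x hx => by
        rw [(Submodule.mem_bot k).1 hx, map_zero]; exact Submodule.zero_mem _)
      rw [finrank_bot] at h1
      exact (chp_monic f ⊥).natDegree_eq_zero.1 h1
    | succ m ih => rw [hc m, ih, Finset.prod_range_succ]

end Pool.Agent.Hx88.WM
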