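import Pool.Agent.R390.SF.Defs
import Pool.Agent.Hx88.WM.Chp

/-!
# Integral systems with the weight-monodromy property at the places of bad reduction (helper88)
-/

set_option autoImplicit false

namespace Pool.Agent.Hx88.WM

open Module Finset Polynomial NumberField Pool.Agent.Y800 Pool.Agent.R390.SF

variable (F : SubFld ℚ) {k : Type} [Field k] {n : ℕ}

/-- The weight-monodromy property, of weight `w`, of the representation `ρ` at the place of `F` below
`P`: for a geometric Frobenius element `σ` and an element `g` of the inertia group (a generator of the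
tame inertia group) there is a filtration `M` of `k ^ n`, stable under `ρ(σ)`, which is the monodromy
filtration of `ρ(g) - 1`, centred at `w`: `(ρ(g) - 1) M i ⊆ M (i - 2)`, and `(ρ(g) - 1) ^ j` induces an
isomorphism of the graded pieces `M (w + j + 1) / M (w + j)` and `M (w - j + 1) / M (w - j)`; and the
characteristic polynomial of `ρ(σ)` on `M (i + 1) / M i` is the image of the integral polynomial
`R i`. (The polynomials `R i` will be pure of weight `i`.) -/
def WeightMonodromyAt (ρ : F.fixingSubgroup →* GL (Fin n) k) (P : Ideal ZBar) (w : ℕ)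
    (R : ℕ → ℤ[X]) : Prop :=
  ∃ (σ g : F.fixingSubgroup) (M : ℕ → Submodule k (Fin n → k)),
    IsGeomFrob (resCard F P) P σ ∧ InInertia P g ∧
    IsLefschetz (Matrix.toLin' ((ρ g : Matrix (Fin n) (Fin n) k) - 1)) w M ∧
    (∀ i, ∀ x ∈ M i, (ρ σ : Matrix (Fin n) (Fin n) k).mulVec x ∈ M i) ∧
    ∀ i, chp (Matrix.toLin' (ρ σ : Matrix (Fin n) (Fin n) k)) (M (i + 1)) =
      chp (Matrix.toLin' (ρ σ : Matrix (Fin n) (Fin n) k)) (M i) * (R i).map (Int.castRingHom k)

/-- The number of Jordan blocks of size `m` of the monodromy, for the polynomials `R i` on the graded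
pieces: the difference of the dimensions of the graded pieces `w + m - 1` and `w + m + 1`. -/
def blocks (w : ℕ) (R : ℕ → ℤ[X]) (m : ℕ) : ℕ :=
  (R (w + m - 1)).natDegree - (R (w + m + 1)).natDegree

/-- `d` is the sum of the sizes of some of the Jordan blocks of the monodromy (`β m` blocks of size
`m`). -/
def IsBlockSum (w : ℕ) (R : ℕ → ℤ[X]) (d : ℕ) : Prop :=
  ∃ β : ℕ → ℕ, (∀ m, β m ≤ blocks w R m) ∧ d = ∑ m ∈ range (w + 2), m * β m

namespace IntegralSystem

variable {F}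

/-- The system `T` has the weight-monodromy property, of weight `w`, at the places of `F` above the
prime number `p`, with the integral polynomials `R 𝔭 i` which are pure of weight `i`: this holds for
`V_ℓ` for all `ℓ ≠ p` in `Λ` and for `T_ℓ / ℓ` for almost all `ℓ` in `Λ`. -/
structure WeightMonodromy (T : R390.SF.IntegralSystem F n) (Λ : Set ℕ) (w p : ℕ)
    (R : Ideal (𝓞 F) → ℕ → ℤ[X]) : Prop where
  /-- the polynomials are monic -/
  monic : ∀ 𝔭 : Ideal (𝓞 F), 𝔭.IsMaximal → (p : 𝓞 F) ∈ 𝔭 → ∀ i, (R 𝔭 i).Monic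
  /-- and `R 𝔭 i` is pure of weight `i` -/
  pure : ∀ 𝔭 : Ideal (𝓞 F), 𝔭.IsMaximal → (p : 𝓞 F) ∈ 𝔭 → ∀ i, ∀ z : ℂ, z ∈ (R 𝔭 i).aroots ℂ →
    ‖z‖ ^ 2 = (Nat.card (𝓞 F ⧸ 𝔭) : ℝ) ^ i
  /-- the rational representations -/
  rational : ∀ (ℓ : ℕ) [Fact ℓ.Prime], ℓ ∈ Λ → ℓ ≠ p → ∀ P : Ideal ZBar, P.IsMaximal →
    (p : ZBar) ∈ P → WeightMonodromyAt F (T.rat ℓ) P w (R (P.under (𝓞 F)))
  /-- almost all residual representations -/
  residual : ∃ N : ℕ, ∀ (ℓ : ℕ) [Fact ℓ.Prime], ℓ ∈ Λ → N < ℓ → ∀ P : Ideal ZBar, P.IsMaximal →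
    (p : ZBar) ∈ P → WeightMonodromyAt F (T.res ℓ) P w (R (P.under (𝓞 F)))

/-- The Jordan types of the monodromy of `T` at the places above the primes in `S'` are incompatible,
for the primes `ℓ` in `Λ`: for a choice of polynomials `R`, and for each `d` with `0 < d < n` such that
`w [F : ℚ] d` is even and each `ℓ` in `Λ` there is a place above a prime `p ≠ ℓ` in `S'` for which `d` is
not the sum of the sizes of some of the Jordan blocks. -/
def Incompatible (T : R390.SF.IntegralSystem F n) (S' : Finset ℕ) (Λ : Set ℕ) (w : ℕ) : Prop :=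
  ∃ R : Ideal (𝓞 F) → ℕ → ℤ[X],
    (∀ p ∈ S', p.Prime → WeightMonodromy T Λ w p R) ∧
    ∀ ℓ : ℕ, ℓ.Prime → ℓ ∈ Λ → ∀ d : ℕ, 0 < d → d < n → Even (w * (finrank ℚ F * d)) →
      ∃ p ∈ S', p.Prime ∧ p ≠ ℓ ∧ ∃ 𝔭 : Ideal (𝓞 F), 𝔭.IsMaximal ∧ (p : 𝓞 F) ∈ 𝔭 ∧
        ¬ IsBlockSum w (R 𝔭) d

end IntegralSystem

end Pool.Agent.Hx88.WM
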