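import Pool.Agent.Hx88.WM.Defs
import Pool.Agent.R390.SF.Inst

/-!
# The dimensions of the stable subspaces (helper88)
-/

set_option autoImplicit false
set_option linter.unusedSectionVars false

namespace Pool.Agent.Hx88.WM

open Module Finset Polynomial NumberField Pool.Agent.Y800 Pool.Agent.R390.SF
open Pool.Agent.Y126.SH (chi)

attribute [local instance] Subgroup.fintypeQuotientOfFiniteIndex

/-- the roots on the graded pieces of a stable subspace -/
theorem exists_pieces {k V : Type*} [Field k] [AddCommGroup V] [Module k V] [FiniteDimensional k V]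
    {N f : End k V} {w : ℕ} {M : ℕ → Submodule k V} (h : IsLefschetz N w M)
    (hMf : ∀ i, ∀ x ∈ M i, f x ∈ M i) {R : ℕ → ℤ[X]}
    (hR : ∀ i, chp f (M (i + 1)) = chp f (M i) * (R i).map (Int.castRingHom k))
    {W : Submodule k V} (hW : ∀ x ∈ W, f x ∈ W) (Ω : Type*) [Field Ω] [Algebra k Ω]
    [IsAlgClosed Ω] : ∃ A : ℕ → Multiset Ω, (∀ i, A i ≤ ((R i).map (Int.castRingHom Ω)).roots) ∧
      (∀ i, (Multiset.card (A i) : ℤ) = gd M W i) ∧
      ∏ i ∈ range (2 * w + 1), (A i).prod = algebraMap k Ω (LinearMap.det (f.restrict hW)) := by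
  obtain ⟨c, hcr, hcm, hcd, hcp⟩ := chp_prod h.mono h.bot hMf hW hR
  have hcard : ∀ i, Multiset.card ((c i).aroots Ω) = (c i).natDegree := by
    intro i
    rw [aroots_def, ← (IsAlgClosed.splits ((c i).map (algebraMap k Ω))).natDegree_eq_card_roots,
      natDegree_map]
  have hR0 : ∀ i, (R i).map (Int.castRingHom k) ≠ 0 := by
    intro i h0
    have h1 := hR i
    rw [h0, mul_zero] at h1
    exact (chp_monic f (M (i + 1))).ne_zero h1
  refine ⟨fun i => (c i).aroots Ω, ?_, ?_, ?_⟩
  · intro i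
    have h1 : (R i).map (Int.castRingHom Ω) = ((R i).map (Int.castRingHom k)).map (algebraMap k Ω) := by
      rw [Polynomial.map_map]
      congr 1
      exact RingHom.ext_int _ _
    rw [h1]
    show ((c i).map (algebraMap k Ω)).roots ≤ _
    exact roots.le_of_dvd (by
      rw [Ne, Polynomial.map_eq_zero]
      exact hR0 i) (Polynomial.map_dvd _ (hcr i))
  · intro i
    rw [hcard, hcd i]
  · have h1 := hcp (2 * w + 1)
    rw [h.top, inf_top_eq, chp_eq hW] at h1
    have h2 := (Pool.Agent.Y126.MD.roots_sub (Ω := Ω) (W := W) (e := f) hW).2.1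
    rw [← h2, h1, aroots_def, Polynomial.map_prod, roots_prod _ _ (by
      rw [Finset.prod_ne_zero_iff]
      intro i _
      exact ((hcm i).map _).ne_zero)]
    rw [Multiset.prod_bind]
    rfl

section core

variable {F : SubFld ℚ} [hF : FiniteDimensional ℚ F] {n : ℕ} {S : Finset ℕ} {w : ℕ}
  {T : R390.SF.IntegralSystem F n} {ℓ : ℕ} [hℓ : Fact ℓ.Prime]
  {k : Type} [Field k] [TopologicalSpace k] [IsTopologicalRing k] (ψ : ℤ_[ℓ] →+* k)

/-- **The dimension of a stable subspace is a sum of sizes of Jordan blocks at every place.** -/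
theorem dim_blocks (hT : T.PureSystem S w) {p : ℕ} (hp : p.Prime) (hpℓ : ℓ ≠ p)
    {R : Ideal (𝓞 F) → ℕ → ℤ[X]}
    (hwm : ∀ P : Ideal ZBar, P.IsMaximal → (p : ZBar) ∈ P →
      WeightMonodromyAt F (rep ψ T) P w (R (P.under (𝓞 F))))
    {P : Ideal ZBar} (hP : P.IsMaximal) (hpP : (p : ZBar) ∈ P) {σ : GQ} (hσ : IsGeomFrob p P σ)
    (hmon : ∀ (q : GQ ⧸ F.fixingSubgroup) i, (R ((cj q.out P).under (𝓞 F)) i).Monic)
    {m f : (GQ ⧸ F.fixingSubgroup) → ℕ}
    (hfm : ∀ q, f q * m q = expo F.fixingSubgroup)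
    (hf : ∀ q, resCard F (cj q.out P) = p ^ f q)
    {M : ℤ} (hMk : (M : k) ≠ 0)
    (hM : ∀ (Ω : Type) [Field Ω] [IsAlgClosed Ω], (M : Ω) ≠ 0 →
      ∀ (A : (GQ ⧸ F.fixingSubgroup) × Fin (2 * w + 1) → Multiset Ω) (a : ℕ),
        a ≤ expo F.fixingSubgroup * (w * (finrank ℚ F * n)) →
        (∀ x, A x ≤ ((R ((cj x.1.out P).under (𝓞 F)) x.2).map (Int.castRingHom Ω)).roots) →
        ∏ x, (A x).prod ^ m x.1 = (p : Ω) ^ a →
          a * 2 = ∑ x, m x.1 * ((f x.1 * x.2) * Multiset.card (A x)))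
    (U : Submodule k (Fin n → k)) (hU : IsStable (rep ψ T) U)
    (hwt : Wt ψ w (finrank k U) (detChar (rep ψ T) U hU)) (q : GQ ⧸ F.fixingSubgroup) :
    IsBlockSum w (R ((cj q.out P).under (𝓞 F))) (finrank k U) := by
  classical
  obtain ⟨A₀, hA₀, hA₀'⟩ := hwt
  have hprod := hA₀' p hp hpℓ P hP hpP σ hσ
  have hE : 0 < expo F.fixingSubgroup := expo_pos
  -- the local data
  have hloc : ∀ q : GQ ⧸ F.fixingSubgroup, ∃ (s g : F.fixingSubgroup)
      (M : ℕ → Submodule k (Fin n → k)),
      IsLefschetz (Matrix.toLin' ((rep ψ T g : Matrix (Fin n) (Fin n) k) - 1)) w M ∧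
      (∀ i, ∀ x ∈ M i, lin (rep ψ T) s x ∈ M i) ∧
      (∀ i, chp (lin (rep ψ T) s) (M (i + 1)) =
        chp (lin (rep ψ T) s) (M i) * (R ((cj q.out P).under (𝓞 F)) i).map (Int.castRingHom k)) ∧
      (detChar (rep ψ T) U hU (zz σ q) : k) = (detChar (rep ψ T) U hU s : k) ^ m q := by
    intro q
    obtain ⟨s, g, M, hs, -, hL, hMf, hR⟩ := hwm (cj q.out P) (cj_max hP) (cj_nat.2 hpP)
    refine ⟨s, g, M, hL, hMf, hR, ?_⟩
    obtain ⟨f', m', hf', hfm', τ, hτ, hz⟩ := zz_eq hp hP hpP hσ q hs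
    have h1 : f' = f q := Nat.pow_right_injective hp.two_le (by
      show p ^ f' = p ^ f q
      rw [← hf', hf q])
    have h2 : m' = m q := by
      have hfq : 0 < f q := by
        rcases Nat.eq_zero_or_pos (f q) with h0 | h0
        · have := hfm q
          rw [h0, zero_mul] at this
          omega
        · exact h0
      have h3 := hfm q
      rw [← hfm', h1] at h3
      exact (Nat.eq_of_mul_eq_mul_left hfq h3).symm
    rw [hz, map_mul, det_inertia ψ hT hU hp hpℓ (cj_max hP) (cj_nat.2 hpP) hτ, mul_one, map_pow,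
      Units.val_pow_eq_pow_val, h2]
  choose s g M' hL hMf hR hdet using hloc
  have hUN : ∀ q, ∀ x ∈ U, Matrix.toLin' ((rep ψ T (g q) : Matrix (Fin n) (Fin n) k) - 1) x ∈ U := by
    intro q x hx
    have h1 : Matrix.toLin' ((rep ψ T (g q) : Matrix (Fin n) (Fin n) k) - 1) x =
        (Matrix.toLin' (rep ψ T (g q) : Matrix (Fin n) (Fin n) k)) x - x := by
      rw [map_sub, Matrix.toLin'_one]
      rfl
    rw [h1]
    exact U.sub_mem (hU (g q) x hx) hx
  -- the roots
  have hpieces := fun q => exists_pieces (hL q) (hMf q) (hR q) (W := U) (fun x hx => hU (s q) x hx)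
    (AlgebraicClosure k)
  choose A hA hAc hAp using hpieces
  have hMΩ : (M : AlgebraicClosure k) ≠ 0 := by
    rw [← map_intCast (algebraMap k (AlgebraicClosure k))]
    exact (_root_.map_ne_zero _).2 hMk
  have hle : expo F.fixingSubgroup * A₀ ≤ expo F.fixingSubgroup * (w * (finrank ℚ F * n)) := by
    apply Nat.mul_le_mul_left
    have h1 : finrank k U ≤ n := by
      have := Submodule.finrank_le U
      rwa [finrank_fin_fun] at this
    have h2 : w * (finrank ℚ F * finrank k U) ≤ w * (finrank ℚ F * n) := by gcongr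
    omega
  have hsum := hM (AlgebraicClosure k) hMΩ (fun x => A x.1 x.2) _ hle (fun x => hA x.1 x.2) (by
    rw [Fintype.prod_prod_type]
    have h6 := congrArg (algebraMap k (AlgebraicClosure k)) hprod
    rw [map_prod, map_pow, map_natCast] at h6
    rw [← h6]
    refine Finset.prod_congr rfl fun q _ => ?_
    rw [hdet q, map_pow, detChar_val]
    have h7 := hAp q
    rw [← Fin.prod_univ_eq_prod_range (fun i => (A q i).prod) (2 * w + 1)] at h7
    rw [← h7, ← Finset.prod_pow])
  -- the total weights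
  have hgd : ∀ q, ∀ i, 0 ≤ gd (M' q) U i := fun q i => gd_nonneg (hL q).mono U i
  have h8 : ∑ q : GQ ⧸ F.fixingSubgroup,
      ∑ i ∈ range (2 * w + 1), ((i : ℤ) - w) * gd (M' q) U i = 0 := by
    have h9 : (∑ x : (GQ ⧸ F.fixingSubgroup) × Fin (2 * w + 1),
        m x.1 * ((f x.1 * x.2) * Multiset.card (A x.1 x.2)) : ℕ) =
        expo F.fixingSubgroup * ∑ x : (GQ ⧸ F.fixingSubgroup) × Fin (2 * w + 1),
          ((x.2 : ℕ) * Multiset.card (A x.1 x.2)) := by
      rw [Finset.mul_sum]
      refine Finset.sum_congr rfl fun x _ => ?_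
      rw [← hfm x.1]
      ring
    rw [h9, mul_assoc] at hsum
    have h10 := Nat.eq_of_mul_eq_mul_left hE hsum
    rw [hA₀, Fintype.sum_prod_type] at h10
    have h11 := congrArg (Nat.cast : ℕ → ℤ) h10
    push_cast at h11
    have h12 : ∀ q : GQ ⧸ F.fixingSubgroup,
        ∑ i ∈ range (2 * w + 1), ((i : ℤ) - w) * gd (M' q) U i =
          (∑ i : Fin (2 * w + 1), ((i : ℕ) : ℤ) * (Multiset.card (A q i) : ℤ)) -
            w * finrank k U := by
      intro q
      rw [← sum_gd (hL q) U, Finset.mul_sum,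
        Fin.sum_univ_eq_sum_range (fun i => (i : ℤ) * (Multiset.card (A q i) : ℤ)) (2 * w + 1),
        ← Finset.sum_sub_distrib]
      refine Finset.sum_congr rfl fun i _ => ?_
      rw [hAc q i]
      ring
    rw [Finset.sum_congr rfl fun q _ => h12 q, Finset.sum_sub_distrib, ← h11, Finset.sum_const,
      Finset.card_univ, card_quot, nsmul_eq_mul]
    ring
  have h9 : ∀ q, ∑ i ∈ range (2 * w + 1), ((i : ℤ) - w) * gd (M' q) U i = 0 := by
    intro q
    exact (Finset.sum_eq_zero_iff_of_nonpos fun q _ => sum_nonpos (hL q) (hUN q)).1 h8 q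
      (Finset.mem_univ q)
  -- the conclusion at `q`
  have hs : ∀ j ≤ w, gd (M' q) U (w + j) = gd (M' q) U (w - j) :=
    fun j hj => gd_symm (hL q) (hUN q) (h9 q) hj
  have hdeg : ∀ i, ((R ((cj q.out P).under (𝓞 F)) i).natDegree : ℤ) = gd (M' q) ⊤ i := by
    intro i
    have h1 := congrArg natDegree (hR q i)
    rw [(chp_monic _ (M' q i)).natDegree_mul ((hmon q i).map _), chp_natDegree (hMf q (i + 1)),
      chp_natDegree (hMf q i), (hmon q i).natDegree_map] at h1
    rw [gd, top_inf_eq, top_inf_eq]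
    omega
  refine ⟨fun m => if m = 0 then 0 else (gd (M' q) U (w + m - 1) - gd (M' q) U (w + m + 1)).toNat,
    ?_, ?_⟩
  · intro m
    rcases Nat.eq_zero_or_pos m with rfl | hm
    · simp
    · obtain ⟨m, rfl⟩ : ∃ m', m = m' + 1 := ⟨m - 1, by omega⟩
      beta_reduce
      rw [if_neg (Nat.succ_ne_zero m), blocks]
      have e1 : w + (m + 1) - 1 = w + m := by omega
      have e2 : w + (m + 1) + 1 = w + m + 2 := by omega
      rw [e1, e2]
      have h1 := gd_step_quot (hL q) (hUN q) hs m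
      have h2 := hdeg (w + m)
      have h3 := hdeg (w + m + 2)
      omega
  · have h1 := sum_gd (hL q) U
    rw [sum_blocks (gd (M' q) U) w hs fun i hi => gd_zero (hL q) U hi] at h1
    have h2 : ((∑ m ∈ range (w + 2), m * (if m = 0 then 0 else
        (gd (M' q) U (w + m - 1) - gd (M' q) U (w + m + 1)).toNat) : ℕ) : ℤ) = finrank k U := by
      rw [← h1, Finset.sum_range_succ']
      push_cast
      simp only [add_zero]
      refine Finset.sum_congr rfl fun m _ => ?_
      have e1 : w + (m + 1) - 1 = w + m := by omega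
      have e2 : w + (m + 1) + 1 = w + m + 2 := by omega
      rw [e1, e2, Int.toNat_of_nonneg]
      have h3 := gd_step (hL q) (hUN q) m
      omega
    exact_mod_cast h2.symm

end core

end Pool.Agent.Hx88.WM
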