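import Pool.Agent.Hx88.WM.Dim

/-!
# Systems with incompatible Jordan types are irreducible (helper88)
-/

set_option autoImplicit false
set_option linter.unusedSectionVars false

namespace Pool.Agent.Hx88.WM

open Module Finset Polynomial NumberField Pool.Agent.Y800 Pool.Agent.R390.SF
open Pool.Agent.Y126.SH (chi)

attribute [local instance] Subgroup.fintypeQuotientOfFiniteIndex

variable {F : SubFld ℚ} [hF : FiniteDimensional ℚ F] {n : ℕ} {S : Finset ℕ} {w : ℕ}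

/-- the residue degrees of the places above `p` -/
theorem exists_deg {p : ℕ} (hp : p.Prime) {P : Ideal ZBar} (hP : P.IsMaximal) (hpP : (p : ZBar) ∈ P)
    {σ : GQ} (hσ : IsGeomFrob p P σ) : ∃ f m : (GQ ⧸ F.fixingSubgroup) → ℕ,
      (∀ q, f q * m q = expo F.fixingSubgroup) ∧ ∀ q, resCard F (cj q.out P) = p ^ f q := by
  have h : ∀ q : GQ ⧸ F.fixingSubgroup, ∃ f m : ℕ, f * m = expo F.fixingSubgroup ∧
      resCard F (cj q.out P) = p ^ f := by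
    intro q
    obtain ⟨f, hf, hf'⟩ := resCard_pow (F := F) hp (cj_max (x := q.out) hP) (cj_nat.2 hpP)
    have h1 : IsGeomFrob (p ^ expo F.fixingSubgroup) (cj q.out P) (zz σ q : GQ) :=
      cj_frob (geom_pow hσ _)
    obtain ⟨m, hm⟩ := dvd_of_frob hp (cj_max hP) (cj_nat.2 hpP) hf' (zz σ q).2 h1
    exact ⟨f, m, hm.symm, hf'⟩
  choose f m h1 h2 using h
  exact ⟨f, m, h1, h2⟩

/-- every place above `p` is below one of the conjugates -/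
theorem exists_place {p : ℕ} (hp : p.Prime) {P : Ideal ZBar} (hP : P.IsMaximal)
    (hpP : (p : ZBar) ∈ P) {𝔭 : Ideal (𝓞 F)} (h𝔭 : 𝔭.IsMaximal) (hp𝔭 : (p : 𝓞 F) ∈ 𝔭) :
    ∃ q : GQ ⧸ F.fixingSubgroup, (cj q.out P).under (𝓞 F) = 𝔭 := by
  obtain ⟨Q, hQ, hQ'⟩ := Ideal.exists_maximal_ideal_liesOver_of_isIntegral (S := ZBar) 𝔭
  have h1 : Q.under (𝓞 F) = 𝔭 := hQ'.over.symm
  have hpQ : (p : ZBar) ∈ Q := by
    have h2 : (p : 𝓞 F) ∈ Q.under (𝓞 F) := by rw [h1]; exact hp𝔭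
    rwa [mem_under, map_natCast] at h2
  obtain ⟨x, hx⟩ := exists_cj hp hP hpP hQ hpQ
  refine ⟨(x : GQ ⧸ F.fixingSubgroup), ?_⟩
  obtain ⟨y, hy⟩ := QuotientGroup.mk_out_eq_mul F.fixingSubgroup x
  rw [hy, ← cj_cj, under_cj y.2, ← hx, h1]

/-- the data at a prime with the weight-monodromy property -/
theorem exists_bad {T : R390.SF.IntegralSystem F n} {Λ : Set ℕ} {p : ℕ} (hp : p.Prime)
    {R : Ideal (𝓞 F) → ℕ → ℤ[X]} (hW : IntegralSystem.WeightMonodromy T Λ w p R) :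
    ∃ M : ℤ, M ≠ 0 ∧ ∀ (ℓ : ℕ) [Fact ℓ.Prime] (k : Type) [Field k] [TopologicalSpace k]
      [IsTopologicalRing k] (ψ : ℤ_[ℓ] →+* k), ℓ ≠ p → (M : k) ≠ 0 → T.PureSystem S w →
      (∀ P : Ideal ZBar, P.IsMaximal → (p : ZBar) ∈ P →
        WeightMonodromyAt F (rep ψ T) P w (R (P.under (𝓞 F)))) →
      ∀ (U : Submodule k (Fin n → k)) (hU : IsStable (rep ψ T) U),
        Wt ψ w (finrank k U) (detChar (rep ψ T) U hU) →
        ∀ 𝔭 : Ideal (𝓞 F), 𝔭.IsMaximal → (p : 𝓞 F) ∈ 𝔭 → IsBlockSum w (R 𝔭) (finrank k U) := by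
  classical
  obtain ⟨P, σ, hP, hpP, hσ⟩ := exists_geom hp
  obtain ⟨f, m, hfm, hf⟩ := exists_deg (F := F) hp hP hpP hσ
  have hmax : ∀ q : GQ ⧸ F.fixingSubgroup, ((cj q.out P).under (𝓞 F)).IsMaximal :=
    fun q => under_max (cj_max hP)
  have hmem : ∀ q : GQ ⧸ F.fixingSubgroup, (p : 𝓞 F) ∈ (cj q.out P).under (𝓞 F) := by
    intro q
    rw [mem_under, map_natCast]
    exact cj_nat.2 hpP
  obtain ⟨M, hM0, hM⟩ := wt_gen
    (fun x : (GQ ⧸ F.fixingSubgroup) × Fin (2 * w + 1) => R ((cj x.1.out P).under (𝓞 F)) x.2)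
    (fun x => hW.monic _ (hmax x.1) (hmem x.1) _) hp.one_lt (fun x => f x.1 * x.2)
    (fun x z hz => by
      rw [hW.pure _ (hmax x.1) (hmem x.1) _ z hz, pow_mul]
      congr 1
      have h1 := hf x.1
      rw [resCard] at h1
      rw [h1]
      push_cast
      rfl)
    (fun x => m x.1) (expo F.fixingSubgroup * (w * (finrank ℚ F * n)))
  refine ⟨M, hM0, ?_⟩
  intro ℓ _ k _ _ _ ψ hpℓ hMk hT hwm U hU hwt 𝔭 h𝔭 hp𝔭
  obtain ⟨q, rfl⟩ := exists_place hp hP hpP h𝔭 hp𝔭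
  exact dim_blocks ψ hT hp hpℓ hwm hP hpP hσ (fun q i => hW.monic _ (hmax q) (hmem q) i) hfm hf hMk
    hM U hU hwt q

/-- **Systems with incompatible Jordan types are irreducible.** -/
theorem irr_incomp {T : R390.SF.IntegralSystem F n} {Λ : Set ℕ} {S' : Finset ℕ}
    (hT : T.PureSystem S w) (hI : IntegralSystem.Incompatible T S' Λ w) : T.IsIrreducible Λ := by
  classical
  obtain ⟨R, hW, hI⟩ := hI
  have hbad : ∀ p : ℕ, ∃ M : ℤ, M ≠ 0 ∧ (p ∈ S' → p.Prime → ∀ (ℓ : ℕ) [Fact ℓ.Prime] (k : Type)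
      [Field k] [TopologicalSpace k] [IsTopologicalRing k] (ψ : ℤ_[ℓ] →+* k), ℓ ≠ p → (M : k) ≠ 0 →
      (∀ P : Ideal ZBar, P.IsMaximal → (p : ZBar) ∈ P →
        WeightMonodromyAt F (rep ψ T) P w (R (P.under (𝓞 F)))) →
      ∀ (U : Submodule k (Fin n → k)) (hU : IsStable (rep ψ T) U),
        Wt ψ w (finrank k U) (detChar (rep ψ T) U hU) →
        ∀ 𝔭 : Ideal (𝓞 F), 𝔭.IsMaximal → (p : 𝓞 F) ∈ 𝔭 → IsBlockSum w (R 𝔭) (finrank k U)) := by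
    intro p
    by_cases h : p ∈ S' ∧ p.Prime
    · obtain ⟨M, hM0, hM⟩ := exists_bad (S := S) h.2 (hW p h.1 h.2)
      exact ⟨M, hM0, fun _ _ ℓ _ k _ _ _ ψ h1 h2 h3 U hU h4 => hM ℓ k ψ h1 h2 hT h3 U hU h4⟩
    · exact ⟨1, one_ne_zero, fun h1 h2 => absurd ⟨h1, h2⟩ h⟩
  choose M hM0 hM using hbad
  -- a stable subspace is trivial
  have key : ∀ (ℓ : ℕ) [Fact ℓ.Prime] (k : Type) [Field k] [TopologicalSpace k]
      [IsTopologicalRing k] (ψ : ℤ_[ℓ] →+* k), ℓ ∈ Λ → (∀ p ∈ S', (M p : k) ≠ 0) →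
      (∀ p ∈ S', p.Prime → ℓ ≠ p → ∀ P : Ideal ZBar, P.IsMaximal → (p : ZBar) ∈ P →
        WeightMonodromyAt F (rep ψ T) P w (R (P.under (𝓞 F)))) →
      (∀ (U : Submodule k (Fin n → k)) (hU : IsStable (rep ψ T) U),
        Wt ψ w (finrank k U) (detChar (rep ψ T) U hU)) →
      ∀ U : Submodule k (Fin n → k), IsStable (rep ψ T) U → U = ⊥ ∨ U = ⊤ := by
    intro ℓ hℓ k _ _ _ ψ hΛ hMk hwm hwt U hU
    have hdim : finrank k (Fin n → k) = n := finrank_fin_fun k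
    have hle : finrank k U ≤ n := by
      have := Submodule.finrank_le U
      rwa [hdim] at this
    rcases Nat.eq_zero_or_pos (finrank k U) with h0 | hpos
    · left
      exact Submodule.finrank_eq_zero.1 h0
    rcases hle.lt_or_eq with hlt | heq
    · exfalso
      obtain ⟨A, hA, -⟩ := hwt U hU
      obtain ⟨p, hpS, hp, hpℓ, 𝔭, h𝔭, hp𝔭, hno⟩ := hI ℓ hℓ.out hΛ (finrank k U) hpos hlt
        ⟨A, by rw [← hA]; ring⟩
      exact hno (hM p hpS hp ℓ k ψ hpℓ.symm (hMk p hpS) (hwm p hpS hp hpℓ.symm) U hU (hwt U hU) 𝔭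
        h𝔭 hp𝔭)
    · right
      apply Submodule.eq_top_of_finrank_eq
      rw [hdim, heq]
  constructor
  · intro ℓ _ hΛ U hU
    exact key ℓ ℚ_[ℓ] (algebraMap ℤ_[ℓ] ℚ_[ℓ]) hΛ (fun p _ => by exact_mod_cast hM0 p)
      (fun p hp hpp hpℓ => (hW p hp hpp).rational ℓ hΛ hpℓ) (fun U hU => rat_wt hT U hU) U hU
  · obtain ⟨N, hN⟩ := res_wt hT
    have hres : ∀ p : ℕ, ∃ N : ℕ, p ∈ S' → p.Prime → ∀ (ℓ : ℕ) [Fact ℓ.Prime], ℓ ∈ Λ → N < ℓ →
        ∀ P : Ideal ZBar, P.IsMaximal → (p : ZBar) ∈ P →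
          WeightMonodromyAt F (T.res ℓ) P w (R (P.under (𝓞 F))) := by
      intro p
      by_cases h : p ∈ S' ∧ p.Prime
      · obtain ⟨N, hN⟩ := (hW p h.1 h.2).residual
        exact ⟨N, fun _ _ => hN⟩
      · exact ⟨0, fun h1 h2 => absurd ⟨h1, h2⟩ h⟩
    choose N' hN' using hres
    refine ⟨max N (S'.sup fun p => max (N' p) (M p).natAbs), ?_⟩
    intro ℓ _ hΛ hlt U hU
    rw [max_lt_iff] at hlt
    have h1 : ∀ p ∈ S', max (N' p) (M p).natAbs < ℓ := fun p hp =>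
      lt_of_le_of_lt (Finset.le_sup (f := fun p => max (N' p) (M p).natAbs) hp) hlt.2
    exact key ℓ (ZMod ℓ) (PadicInt.toZMod (p := ℓ)) hΛ
      (fun p hp => ne_zero_mod (hM0 p) (max_lt_iff.1 (h1 p hp)).2)
      (fun p hp hpp _ => hN' p hp hpp ℓ hΛ (max_lt_iff.1 (h1 p hp)).1)
      (fun U hU => hN ℓ hlt.1 U hU) U hU

end Pool.Agent.Hx88.WM
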