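import Pool.Agent.Y126.SH.Lin

/-!
# Subspaces stable under a nilpotent endomorphism with a Lefschetz filtration (helper88)

`M` is an increasing filtration of `V`, `N` lowers it by two and `N ^ j` induces isomorphisms between
the graded pieces `w + j` and `w - j`. For a subspace `W` stable under `N` the dimensions
`gd M W i` of the graded pieces of `W` satisfy `∑ (i - w) gd M W i ≤ 0`, and if the sum is zero then
`W` behaves like a direct summand: the numbers of Jordan blocks of the restriction of `N` to `W` are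
at most those of `N`.
-/

set_option autoImplicit false
set_option linter.unusedSectionVars false

namespace Pool.Agent.Hx88.WM

open Module Finset

variable {k V : Type*} [Field k] [AddCommGroup V] [Module k V] [FiniteDimensional k V]

/-- comparison of dimensions -/
theorem diff_le (f : V →ₗ[k] V) {A A₁ B B₁ : Submodule k V} (hB : B₁ ≤ B)
    (hf : ∀ x ∈ A, f x ∈ B) (hinj : ∀ x ∈ A, f x ∈ B₁ → x ∈ A₁) :
    finrank k A + finrank k B₁ ≤ finrank k B + finrank k A₁ := by
  let g : A →ₗ[k] (B ⧸ B₁.submoduleOf B) :=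
    (B₁.submoduleOf B).mkQ ∘ₗ ((f.domRestrict A).codRestrict B fun x => hf x x.2)
  have h1 := g.finrank_range_add_finrank_ker
  have h2 : finrank k (LinearMap.range g) ≤ finrank k (B ⧸ B₁.submoduleOf B) :=
    Submodule.finrank_le _
  have h3 := (B₁.submoduleOf B).finrank_quotient_add_finrank
  have h4 : finrank k (B₁.submoduleOf B) = finrank k B₁ :=
    (Submodule.submoduleOfEquivOfLe hB).finrank_eq
  have h5 : finrank k (LinearMap.ker g) ≤ finrank k A₁ := by
    let e : LinearMap.ker g →ₗ[k] A₁ :=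
      ((Submodule.subtype _) ∘ₗ (Submodule.subtype _)).codRestrict _ fun x => by
        have h5 : g x.1 = 0 := x.2
        apply hinj _ x.1.2
        have h6 : (⟨f x.1, hf x.1 x.1.2⟩ : B) ∈ B₁.submoduleOf B := by
          rw [← Submodule.Quotient.mk_eq_zero]
          exact h5
        exact h6
    apply LinearMap.finrank_le_finrank_of_injective (f := e)
    intro x y hxy
    have h5 := congrArg Subtype.val hxy
    exact Subtype.ext (Subtype.ext h5)
  omega

/-- surjectivity from the equality of dimensions -/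
theorem surj_of_eq (f : V →ₗ[k] V) {A A₁ B B₁ : Submodule k V} (hB : B₁ ≤ B)
    (hf : ∀ x ∈ A, f x ∈ B) (hinj : ∀ x ∈ A, f x ∈ B₁ → x ∈ A₁)
    (heq : finrank k B + finrank k A₁ ≤ finrank k A + finrank k B₁) :
    ∀ y ∈ B, ∃ x ∈ A, y - f x ∈ B₁ := by
  let g : A →ₗ[k] (B ⧸ B₁.submoduleOf B) :=
    (B₁.submoduleOf B).mkQ ∘ₗ ((f.domRestrict A).codRestrict B fun x => hf x x.2)
  have h1 := g.finrank_range_add_finrank_ker
  have h3 := (B₁.submoduleOf B).finrank_quotient_add_finrank
  have h4 : finrank k (B₁.submoduleOf B) = finrank k B₁ :=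
    (Submodule.submoduleOfEquivOfLe hB).finrank_eq
  have h5 : finrank k (LinearMap.ker g) ≤ finrank k A₁ := by
    let e : LinearMap.ker g →ₗ[k] A₁ :=
      ((Submodule.subtype _) ∘ₗ (Submodule.subtype _)).codRestrict _ fun x => by
        have h5 : g x.1 = 0 := x.2
        apply hinj _ x.1.2
        have h6 : (⟨f x.1, hf x.1 x.1.2⟩ : B) ∈ B₁.submoduleOf B := by
          rw [← Submodule.Quotient.mk_eq_zero]
          exact h5
        exact h6
    apply LinearMap.finrank_le_finrank_of_injective (f := e)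
    intro x y hxy
    have h5 := congrArg Subtype.val hxy
    exact Subtype.ext (Subtype.ext h5)
  have h2 : finrank k (B ⧸ B₁.submoduleOf B) ≤ finrank k (LinearMap.range g) := by omega
  have h6 : LinearMap.range g = ⊤ := Submodule.eq_top_of_finrank_eq
    (le_antisymm (Submodule.finrank_le _) h2)
  intro y hy
  have h7 : (B₁.submoduleOf B).mkQ ⟨y, hy⟩ ∈ LinearMap.range g := by rw [h6]; trivial
  obtain ⟨x, hx⟩ := h7
  refine ⟨x, x.2, ?_⟩
  have h8 : (⟨y, hy⟩ : B) - ⟨f x, hf x x.2⟩ ∈ B₁.submoduleOf B := by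
    rw [← Submodule.Quotient.eq]
    exact hx.symm
  exact h8

/-- `M` is a filtration of `V` by subspaces (`M i`: weights `< i`), `N` lowers it by two, and `N ^ j`
induces isomorphisms from the graded piece `w + j` to the graded piece `w - j`: the monodromy
filtration of `N`, centred at `w`. -/
structure IsLefschetz (N : End k V) (w : ℕ) (M : ℕ → Submodule k V) : Prop where
  mono : Monotone M
  bot : M 0 = ⊥
  top : M (2 * w + 1) = ⊤
  lower : ∀ i, ∀ x ∈ M i, N x ∈ M (i - 2)
  inj : ∀ j ≤ w, ∀ x ∈ M (w + j + 1), (N ^ j) x ∈ M (w - j) → x ∈ M (w + j)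
  symm : ∀ j ≤ w, finrank k (M (w + j + 1)) + finrank k (M (w - j)) =
    finrank k (M (w - j + 1)) + finrank k (M (w + j))

/-- dimension of the graded piece `i` of `W` -/
noncomputable def gd (M : ℕ → Submodule k V) (W : Submodule k V) (i : ℕ) : ℤ :=
  (finrank k (W ⊓ M (i + 1) : Submodule k V) : ℤ) - finrank k (W ⊓ M i : Submodule k V)

section

variable {N : End k V} {w : ℕ} {M : ℕ → Submodule k V}

theorem IsLefschetz.pow_lower (h : IsLefschetz N w M) (j : ℕ) :
    ∀ i, ∀ x ∈ M i, (N ^ j) x ∈ M (i - 2 * j) := by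
  induction j with
  | zero => intro i x hx; simpa using hx
  | succ j ih =>
    intro i x hx
    rw [pow_succ, Module.End.mul_apply]
    have h1 := ih (i - 2) (N x) (h.lower i x hx)
    have h2 : i - 2 - 2 * j = i - 2 * (j + 1) := by omega
    rwa [h2] at h1

theorem IsLefschetz.eq_top (h : IsLefschetz N w M) {i : ℕ} (hi : 2 * w + 1 ≤ i) : M i = ⊤ :=
  top_le_iff.1 (h.top ▸ h.mono hi)

theorem gd_nonneg (hM : Monotone M) (W : Submodule k V) (i : ℕ) : 0 ≤ gd M W i := by
  have h1 : W ⊓ M i ≤ W ⊓ M (i + 1) := inf_le_inf_left _ (hM (Nat.le_succ i))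
  have h2 := Submodule.finrank_mono h1
  rw [gd]
  omega

theorem gd_zero (h : IsLefschetz N w M) (W : Submodule k V) {i : ℕ} (hi : 2 * w + 1 ≤ i) :
    gd M W i = 0 := by
  rw [gd, h.eq_top hi, h.eq_top (i := i + 1) (by omega), sub_self]

theorem sum_gd (h : IsLefschetz N w M) (W : Submodule k V) :
    ∑ i ∈ range (2 * w + 1), gd M W i = finrank k W := by
  simp only [gd]
  rw [Finset.sum_range_sub (fun i => (finrank k (W ⊓ M i : Submodule k V) : ℤ)), h.top, h.bot,
    inf_top_eq, inf_bot_eq, finrank_bot]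
  simp

theorem pow_stable {W : Submodule k V} (hW : ∀ x ∈ W, N x ∈ W) (j : ℕ) :
    ∀ x ∈ W, (N ^ j) x ∈ W := by
  induction j with
  | zero => intro x hx; simpa using hx
  | succ j ih =>
    intro x hx
    rw [pow_succ, Module.End.mul_apply]
    exact ih _ (hW x hx)

theorem gd_le (h : IsLefschetz N w M) {W : Submodule k V} (hW : ∀ x ∈ W, N x ∈ W) {j : ℕ}
    (hj : j ≤ w) : gd M W (w + j) ≤ gd M W (w - j) := by
  have h1 := diff_le (N ^ j) (A := W ⊓ M (w + j + 1)) (A₁ := W ⊓ M (w + j))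
    (B := W ⊓ M (w - j + 1)) (B₁ := W ⊓ M (w - j))
    (inf_le_inf_left _ (h.mono (Nat.le_succ _))) (fun x hx => ⟨pow_stable hW j x hx.1, by
      have h2 := h.pow_lower j _ x hx.2
      have h3 : w + j + 1 - 2 * j = w - j + 1 := by omega
      rwa [h3] at h2⟩) (fun x hx hx' => ⟨hx.1, h.inj j hj x hx.2 hx'.2⟩)
  rw [gd, gd]
  omega

/-- the weighted sum over the graded pieces -/
theorem sum_weight (c : ℕ → ℤ) (w : ℕ) : ∑ i ∈ range (2 * w + 1), ((i : ℤ) - w) * c i =
    ∑ j ∈ range (w + 1), (j : ℤ) * (c (w + j) - c (w - j)) := by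
  have h1 : 2 * w + 1 = w + (w + 1) := by ring
  rw [h1, Finset.sum_range_add]
  have h2 : ∑ i ∈ range w, ((i : ℤ) - w) * c i = ∑ j ∈ range (w + 1), -((j : ℤ) * c (w - j)) := by
    rw [Finset.sum_range_succ']
    simp only [Nat.cast_zero, zero_mul, neg_zero, add_zero]
    rw [← Finset.sum_range_reflect]
    refine Finset.sum_congr rfl fun i hi => ?_
    have hi' := Finset.mem_range.1 hi
    have h5 : ((w - 1 - i : ℕ) : ℤ) = w - 1 - i := by omega
    have h6 : w - (i + 1) = w - 1 - i := by omega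
    rw [h5, h6]
    push_cast
    ring
  rw [h2, ← Finset.sum_add_distrib]
  refine Finset.sum_congr rfl fun j _ => ?_
  push_cast
  ring

/-- **The weighted sum is not positive.** -/
theorem sum_nonpos (h : IsLefschetz N w M) {W : Submodule k V} (hW : ∀ x ∈ W, N x ∈ W) :
    ∑ i ∈ range (2 * w + 1), ((i : ℤ) - w) * gd M W i ≤ 0 := by
  rw [sum_weight]
  refine Finset.sum_nonpos fun j hj => ?_
  have h1 := gd_le h hW (j := j) (by have := Finset.mem_range.1 hj; omega)
  have h2 : gd M W (w + j) - gd M W (w - j) ≤ 0 := by omega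
  exact mul_nonpos_of_nonneg_of_nonpos (Nat.cast_nonneg _) h2

/-- If it vanishes then the dimensions are symmetric. -/
theorem gd_symm (h : IsLefschetz N w M) {W : Submodule k V} (hW : ∀ x ∈ W, N x ∈ W)
    (h0 : ∑ i ∈ range (2 * w + 1), ((i : ℤ) - w) * gd M W i = 0) {j : ℕ} (hj : j ≤ w) :
    gd M W (w + j) = gd M W (w - j) := by
  rw [sum_weight] at h0
  rcases Nat.eq_zero_or_pos j with rfl | hpos
  · simp
  have h1 : ∀ i ∈ range (w + 1), (i : ℤ) * (gd M W (w + i) - gd M W (w - i)) ≤ 0 := by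
    intro i hi
    have h1 := gd_le h hW (j := i) (by have := Finset.mem_range.1 hi; omega)
    have h2 : gd M W (w + i) - gd M W (w - i) ≤ 0 := by omega
    exact mul_nonpos_of_nonneg_of_nonpos (Nat.cast_nonneg _) h2
  have h2 := (Finset.sum_eq_zero_iff_of_nonpos h1).1 h0 j (Finset.mem_range.2 (by omega))
  rcases mul_eq_zero.1 h2 with h3 | h3
  · exact absurd h3 (by exact_mod_cast hpos.ne')
  · omega

/-- `N` is injective on the graded pieces in the upper half -/
theorem IsLefschetz.inj_one (h : IsLefschetz N w M) (j : ℕ) {x : V}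
    (hx : x ∈ M (w + j + 3)) (hNx : N x ∈ M (w + j)) : x ∈ M (w + j + 2) := by
  by_cases hj : j + 2 ≤ w
  · refine h.inj (j + 2) hj x hx ?_
    rw [pow_succ, Module.End.mul_apply]
    have h1 := h.pow_lower (j + 1) _ _ hNx
    have h2 : w + j - 2 * (j + 1) = w - (j + 2) := by omega
    rwa [h2] at h1
  · rw [h.eq_top (i := w + j + 2) (by omega)]
    trivial

/-- the numbers of blocks of a stable subspace are not negative -/
theorem gd_step (h : IsLefschetz N w M) {W : Submodule k V} (hW : ∀ x ∈ W, N x ∈ W) (j : ℕ) :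
    gd M W (w + j + 2) ≤ gd M W (w + j) := by
  have h1 := diff_le N (A := W ⊓ M (w + j + 3)) (A₁ := W ⊓ M (w + j + 2))
    (B := W ⊓ M (w + j + 1)) (B₁ := W ⊓ M (w + j))
    (inf_le_inf_left _ (h.mono (Nat.le_succ _))) (fun x hx => ⟨hW x hx.1, by
      have h2 := h.lower _ x hx.2
      have h3 : w + j + 3 - 2 = w + j + 1 := by omega
      rwa [h3] at h2⟩) (fun x hx hx' => ⟨hx.1, h.inj_one j hx.2 hx'.2⟩)
  have e1 : gd M W (w + j + 2) = (finrank k (W ⊓ M (w + j + 3) : Submodule k V) : ℤ) -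
    finrank k (W ⊓ M (w + j + 2) : Submodule k V) := rfl
  have e2 : gd M W (w + j) = (finrank k (W ⊓ M (w + j + 1) : Submodule k V) : ℤ) -
    finrank k (W ⊓ M (w + j) : Submodule k V) := rfl
  omega

theorem finrank_sup_gr (hM : Monotone M) (W : Submodule k V) (i : ℕ) :
    (finrank k (M i ⊔ (W ⊓ M (i + 1)) : Submodule k V) : ℤ) = finrank k (M i) + gd M W i := by
  have h1 := Submodule.finrank_sup_add_finrank_inf_eq (M i) (W ⊓ M (i + 1))
  have h2 : M i ⊓ (W ⊓ M (i + 1)) = W ⊓ M i := by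
    apply le_antisymm
    · exact le_inf (inf_le_right.trans inf_le_left) inf_le_left
    · exact le_inf inf_le_right (inf_le_inf_left _ (hM (Nat.le_succ i)))
  rw [h2] at h1
  rw [gd]
  omega

/-- the numbers of blocks of the quotient by a balanced stable subspace are not negative -/
theorem gd_step_quot (h : IsLefschetz N w M) {W : Submodule k V} (hW : ∀ x ∈ W, N x ∈ W)
    (hs : ∀ j ≤ w, gd M W (w + j) = gd M W (w - j)) (j : ℕ) :
    gd M ⊤ (w + j + 2) - gd M W (w + j + 2) ≤ gd M ⊤ (w + j) - gd M W (w + j) := by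
  by_cases hj : j + 2 ≤ w
  swap
  · rw [gd_zero h ⊤ (i := w + j + 2) (by omega), gd_zero h W (i := w + j + 2) (by omega)]
    have h1 := finrank_sup_gr h.mono W (w + j)
    have h2 : M (w + j) ⊔ (W ⊓ M (w + j + 1)) ≤ M (w + j + 1) :=
      sup_le (h.mono (Nat.le_succ _)) inf_le_right
    have h3 := Submodule.finrank_mono h2
    have h4 : gd M ⊤ (w + j) = (finrank k (M (w + j + 1)) : ℤ) - finrank k (M (w + j)) := by
      rw [gd, top_inf_eq, top_inf_eq]
    rw [h4]
    omega
  have hkey : ∀ x ∈ M (w + j + 3), N x ∈ M (w + j) ⊔ (W ⊓ M (w + j + 1)) →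
      x ∈ M (w + j + 2) ⊔ (W ⊓ M (w + j + 3)) := by
    intro x hx hNx
    obtain ⟨m, hm, y, hy, hmy⟩ := Submodule.mem_sup.1 hNx
    -- the image under the power
    have h1 : (N ^ (j + 1)) y ∈ W ⊓ M (w - (j + 2) + 1) := by
      refine ⟨pow_stable hW _ y hy.1, ?_⟩
      have h2 := h.pow_lower (j + 1) _ y hy.2
      have h3 : w + j + 1 - 2 * (j + 1) = w - (j + 2) + 1 := by omega
      rwa [h3] at h2
    have h2 : (N ^ (j + 1)) m ∈ M (w - (j + 2)) := by
      have h2 := h.pow_lower (j + 1) _ m hm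
      have h3 : w + j - 2 * (j + 1) = w - (j + 2) := by omega
      rwa [h3] at h2
    have hsurj := surj_of_eq (N ^ (j + 2)) (A := W ⊓ M (w + (j + 2) + 1))
      (A₁ := W ⊓ M (w + (j + 2)))
      (B := W ⊓ M (w - (j + 2) + 1)) (B₁ := W ⊓ M (w - (j + 2)))
      (inf_le_inf_left _ (h.mono (Nat.le_succ _))) (fun x hx => ⟨pow_stable hW (j + 2) x hx.1, by
        have h2 := h.pow_lower (j + 2) _ x hx.2
        have h3 : w + (j + 2) + 1 - 2 * (j + 2) = w - (j + 2) + 1 := by omega
        rwa [h3] at h2⟩) (fun x hx hx' => ⟨hx.1, h.inj (j + 2) hj x hx.2 hx'.2⟩) (by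
        have h3 := hs (j + 2) hj
        rw [gd, gd] at h3
        omega)
    obtain ⟨y', hy', hyy⟩ := hsurj _ h1
    have h4 : (N ^ (j + 2)) (x - y') ∈ M (w - (j + 2)) := by
      have h5 : (N ^ (j + 2)) (x - y') =
          (N ^ (j + 1)) m + ((N ^ (j + 1)) y - (N ^ (j + 2)) y') := by
        rw [map_sub]
        have h6 : (N ^ (j + 2)) x = (N ^ (j + 1)) m + (N ^ (j + 1)) y := by
          rw [pow_succ N (j + 1), Module.End.mul_apply, ← hmy, map_add]
        rw [h6]
        abel
      rw [h5]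
      exact (M _).add_mem h2 hyy.2
    have h5 : x - y' ∈ M (w + (j + 2)) := h.inj (j + 2) hj _
      ((M _).sub_mem hx hy'.2) h4
    rw [Submodule.mem_sup]
    exact ⟨x - y', h5, y', hy', by abel⟩
  have h1 := diff_le N (A := M (w + j + 3)) (A₁ := M (w + j + 2) ⊔ (W ⊓ M (w + j + 3)))
    (B := M (w + j + 1)) (B₁ := M (w + j) ⊔ (W ⊓ M (w + j + 1)))
    (sup_le (h.mono (Nat.le_succ _)) inf_le_right) (fun x hx => by
      have h2 := h.lower _ x hx
      have h3 : w + j + 3 - 2 = w + j + 1 := by omega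
      rwa [h3] at h2) hkey
  have h2 := finrank_sup_gr h.mono W (w + j)
  have h3 : (finrank k (M (w + j + 2) ⊔ (W ⊓ M (w + j + 3)) : Submodule k V) : ℤ) =
    finrank k (M (w + j + 2)) + gd M W (w + j + 2) := finrank_sup_gr h.mono W (w + j + 2)
  have h4 : gd M ⊤ (w + j) = (finrank k (M (w + j + 1)) : ℤ) - finrank k (M (w + j)) := by
    rw [gd, top_inf_eq, top_inf_eq]
  have h5 : gd M ⊤ (w + j + 2) = (finrank k (M (w + j + 3)) : ℤ) - finrank k (M (w + j + 2)) := by
    rw [gd, top_inf_eq, top_inf_eq]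
  rw [h4, h5]
  omega

/-- the dimension from the numbers of blocks -/
theorem sum_blocks (c : ℕ → ℤ) (w : ℕ) (hs : ∀ j ≤ w, c (w + j) = c (w - j))
    (h0 : ∀ i, 2 * w + 1 ≤ i → c i = 0) :
    ∑ i ∈ range (2 * w + 1), c i =
      ∑ m ∈ range (w + 1), ((m : ℤ) + 1) * (c (w + m) - c (w + m + 2)) := by
  -- the left hand side
  have h1 : ∑ i ∈ range (2 * w + 1), c i = c w + 2 * ∑ j ∈ range w, c (w + j + 1) := by
    have h2 : 2 * w + 1 = w + (w + 1) := by ring
    rw [h2, Finset.sum_range_add, Finset.sum_range_succ' (fun j => c (w + j)) w]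
    have h3 : ∑ i ∈ range w, c i = ∑ j ∈ range w, c (w + j + 1) := by
      rw [← Finset.sum_range_reflect]
      refine Finset.sum_congr rfl fun j hj => ?_
      have hj' := Finset.mem_range.1 hj
      have h4 : w - 1 - j = w - (j + 1) := by omega
      rw [h4, ← hs (j + 1) (by omega)]
      rfl
    rw [h3]
    simp only [add_zero, ← add_assoc]
    ring
  -- the right hand side
  have h2 : ∀ r : ℕ, ∑ m ∈ range r, ((m : ℤ) + 1) * (c (w + m) - c (w + m + 2)) =
      c w + 2 * (∑ j ∈ range r, c (w + j + 1)) - c w * (if r = 0 then 1 else 0)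
        - (r : ℤ) * c (w + r + 1) - ((r : ℤ) + 1) * c (w + r) +
          (if r = 0 then c w else 0) := by
    intro r
    induction r with
    | zero => simp
    | succ r ih =>
      rw [Finset.sum_range_succ, ih, Finset.sum_range_succ]
      rcases Nat.eq_zero_or_pos r with rfl | hr
      · simp
        ring
      · rw [if_neg hr.ne', if_neg hr.ne', if_neg (Nat.succ_ne_zero r), if_neg (Nat.succ_ne_zero r)]
        push_cast
        have e1 : w + (r + 1) + 1 = w + r + 2 := by ring
        have e2 : w + (r + 1) = w + r + 1 := by ring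
        rw [e1, e2]
        ring
  rw [h1, h2 (w + 1), if_neg (Nat.succ_ne_zero w), if_neg (Nat.succ_ne_zero w),
    Finset.sum_range_succ, h0 (w + w + 1) (by omega), h0 (w + (w + 1) + 1) (by omega),
    h0 (w + (w + 1)) (by omega)]
  ring

end

end Pool.Agent.Hx88.WM
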